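import Pool.Agent.H998.LT.Defs

set_option autoImplicit false

/-!
Subtask LT998 SEQ (owner helper998, MP_4be4c6_an): fast growing integers `m_l` with `m_l / √2` close
to `1 / 4` modulo `1`.
-/

namespace Pool.Agent.H665.LT

open Pool.Agent.H998.LT Real

/-- positive multiples of an irrational number are dense modulo `1` -/
theorem step (α c ε : ℝ) (hα : Irrational α) (hε : 0 < ε) (N : ℕ) :
    ∃ (j : ℕ) (z : ℤ), N ≤ j ∧ |(j : ℝ) * α - c - z| ≤ ε := by
  obtain ⟨n, hn⟩ := exists_nat_gt (1 / ε)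
  have hn0 : 0 < n := by
    rcases Nat.eq_zero_or_pos n with h | h
    · subst h
      have : 0 < 1 / ε := by positivity
      norm_num at hn
      linarith
    · exact h
  obtain ⟨k, hk0, -, hk⟩ := Real.exists_nat_abs_mul_sub_round_le α hn0
  obtain ⟨d, hd⟩ : ∃ d : ℝ, d = k * α - round (k * α) := ⟨_, rfl⟩
  rw [← hd] at hk
  have hdε : |d| ≤ ε := by
    refine hk.trans ?_
    rw [div_le_iff₀ (by positivity)]
    rw [div_lt_iff₀ hε] at hn
    nlinarith
  have hd0 : d ≠ 0 := by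
    intro h
    have h1 : Irrational (k * α) := hα.natCast_mul hk0.ne'
    rw [hd, sub_eq_zero] at h
    rw [h] at h1
    exact h1.ne_int _ rfl
  obtain ⟨z, hz⟩ : ∃ z : ℤ, (N : ℝ) ≤ (c + z) / d := by
    rcases lt_or_gt_of_ne hd0 with h | h
    · refine ⟨⌊N * d - c⌋, ?_⟩
      rw [le_div_iff_of_neg h]
      have := Int.floor_le (N * d - c)
      linarith
    · refine ⟨⌈N * d - c⌉, ?_⟩
      rw [le_div_iff₀ h]
      have := Int.le_ceil (N * d - c)
      linarith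
  obtain ⟨t, ht⟩ : ∃ t : ℕ, t = ⌊(c + z) / d⌋₊ := ⟨_, rfl⟩
  have hNt : N ≤ t := by
    rw [ht]
    exact Nat.le_floor hz
  have h0 : 0 ≤ (c + z) / d := (Nat.cast_nonneg N).trans hz
  have ht1 : (t : ℝ) ≤ (c + z) / d := by rw [ht]; exact Nat.floor_le h0
  have ht2 : (c + z) / d < t + 1 := by rw [ht]; exact Nat.lt_floor_add_one _
  have hu : |(t : ℝ) - (c + z) / d| ≤ 1 := by
    rw [abs_le]
    constructor <;> linarith
  refine ⟨t * k, z + t * round (k * α), hNt.trans (Nat.le_mul_of_pos_right t hk0), ?_⟩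
  have e1 : ((t * k : ℕ) : ℝ) * α - c - ((z + t * round (k * α) : ℤ) : ℝ) =
      d * ((t : ℝ) - (c + z) / d) := by
    have e2 : d * ((c + z) / d) = c + z := by field_simp
    have e3 : (k : ℝ) * α = d + round (k * α) := by rw [hd]; ring
    rw [mul_sub, e2]
    push_cast
    rw [mul_assoc, e3]
    ring_nf
    rw [hd]
    ring_nf
  rw [e1, abs_mul]
  calc |d| * |(t : ℝ) - (c + z) / d| ≤ ε * 1 := mul_le_mul hdε hu (abs_nonneg _) hε.le
    _ = ε := mul_one ε

theorem next (l m : ℕ) (hm : 0 < m) : ∃ m' : ℕ, 0 < m' ∧ 8 * (l + 1) * m ∣ m' ∧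
    2 ^ (l + 4) * m ≤ m' ∧ ∃ z : ℤ, |(m' : ℝ) / √2 - 1 / 4 - z| ≤ 1 / ((l + 1 : ℕ) + 1) := by
  have hq : 8 * (l + 1) * m ≠ 0 := by positivity
  have h1 : Irrational (((8 * (l + 1) * m : ℕ) : ℝ) / √2) :=
    irrational_sqrt_two.natCast_div hq
  obtain ⟨j, z, hj, hz⟩ := step _ (1 / 4) (1 / (((l + 1 : ℕ) : ℝ) + 1)) h1 (by positivity)
    (2 ^ (l + 4))
  have hj0 : 0 < j := lt_of_lt_of_le (by positivity) hj
  refine ⟨j * (8 * (l + 1) * m), by positivity, Dvd.intro_left j rfl, ?_, z, ?_⟩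
  · refine Nat.mul_le_mul hj ?_
    nlinarith
  · rw [← mul_div_assoc] at hz
    rw [Nat.cast_mul]
    exact hz

theorem t_seq : S_seq := by
  choose f h0 h1 h2 h3 using fun (l : ℕ) (m : {m : ℕ // 0 < m}) => next l m.1 m.2
  obtain ⟨M, hM0, hM⟩ : ∃ M : ℕ → {m : ℕ // 0 < m}, M 0 = ⟨1, one_pos⟩ ∧
      ∀ l, M (l + 1) = ⟨f l (M l), h0 l (M l)⟩ :=
    ⟨fun l => Nat.rec ⟨1, one_pos⟩ (fun l x => ⟨f l x, h0 l x⟩) l, rfl, fun _ => rfl⟩
  refine ⟨fun l => (M l).1, fun l => (M l).2, fun l => ?_, fun l => ?_, fun l => ?_⟩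
  · simp only [hM l]
    exact h1 l (M l)
  · simp only [hM l]
    exact h2 l (M l)
  · rcases l with _ | l
    · refine ⟨0, ?_⟩
      simp only [hM0]
      have e1 : 1 < √2 := by
        rw [show (1 : ℝ) = √1 by simp]
        exact Real.sqrt_lt_sqrt (by norm_num) (by norm_num)
      have e2 : 1 / √2 ≤ 1 := by
        rw [div_le_one (by positivity)]
        exact e1.le
      have e3 : 0 ≤ 1 / √2 := by positivity
      have e4 : ((1 : ℕ) : ℝ) / √2 = 1 / √2 := by norm_num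
      rw [e4, Int.cast_zero, Nat.cast_zero, zero_add, div_one, abs_le]
      constructor <;> linarith
    · simp only [hM l]
      exact h3 l (M l)

end Pool.Agent.H665.LT
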